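import Pool.Agent.Helper67.TD.Four

set_option autoImplicit false

/-!
Turing determinacy implies that every midpoint convex real function on the bounded sequences in a
real normed space which is invariant under null perturbations is continuous for the supremum norm.
(Apply this to the norm of `T v`: every additive or linear map `T` from the bounded sequences to
any normed space, however large, which kills the null sequences is bounded.) Stated as an explicit
reduction to the determinacy of Turing invariant sets.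
-/

namespace Pool.Agent.Results.MP_917879_lc.ConvexModNull

open Pool.Agent.H685R3 Pool.Agent.TH774.TD Pool.Agent.Helper67.TD Filter Topology

/-- `x` and `y` have the same Turing degree (Mathlib's Turing reducibility, for characteristic
functions). -/
def SameDegree (x y : ℕ → Bool) : Prop :=
  TuringReducible (charFn x) (charFn y) ∧ TuringReducible (charFn y) (charFn x)

section

variable {E : Type*} [NormedAddCommGroup E]

/-- The sequence `v` is bounded. -/
def Bdd (v : ℕ → E) : Prop := ∃ C : ℝ, ∀ m, ‖v m‖ ≤ C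

/-- The `L m` are maps from `[0, ∞)` to the unit ball with Lipschitz constant `2`. -/
def Slow (L : ℕ → ℝ → E) : Prop :=
  (∀ m s, 0 ≤ s → ‖L m s‖ ≤ 1) ∧
    ∀ m s t, 0 ≤ s → 0 ≤ t → ‖L m s - L m t‖ ≤ 2 * |s - t|

/-- Midpoint convexity on bounded sequences. -/
def MidConvex [NormedSpace ℝ E] (f : (ℕ → E) → ℝ) : Prop :=
  ∀ u v, Bdd u → Bdd v → f (fun m => (2 : ℝ)⁻¹ • (u m + v m)) ≤ (f u + f v) / 2

/-- Invariance of `f` under null perturbations of bounded sequences. -/
def NullInvariant (f : (ℕ → E) → ℝ) : Prop :=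
  ∀ u v, Bdd u → Bdd v → Tendsto (fun m => u m - v m) atTop (𝓝 0) → f u = f v

end

theorem continuity {E : Type*} [NormedAddCommGroup E] [NormedSpace ℝ E] {f : (ℕ → E) → ℝ}
    (hf : MidConvex f) {C : ℝ} (hC : ∀ v : ℕ → E, (∀ m, ‖v m‖ ≤ 1) → f v ≤ C) :
    ∀ v, Bdd v → ∀ η > 0, ∃ δ > 0, ∀ w, (∀ m, ‖w m - v m‖ ≤ δ) → |f w - f v| ≤ η := by
  intro v hv η hη
  have hbb : ∀ h : ℕ → E, (∀ m, ‖h m‖ ≤ 1) → Bdd h := fun h hh => ⟨1, hh⟩
  have hadd : ∀ u w : ℕ → E, Bdd u → Bdd w → Bdd fun m => u m + w m := by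
    rintro u w ⟨a, ha⟩ ⟨b, hb⟩
    exact ⟨a + b, fun m => (norm_add_le _ _).trans (add_le_add (ha m) (hb m))⟩
  have hsmul : ∀ (c : ℝ) (u : ℕ → E), Bdd u → Bdd fun m => c • u m := by
    rintro c u ⟨a, ha⟩
    refine ⟨|c| * a, fun m => ?_⟩
    rw [norm_smul, Real.norm_eq_abs]
    exact mul_le_mul_of_nonneg_left (ha m) (abs_nonneg _)
  -- bound on the ball with radius one half around `v`
  obtain ⟨D, hD⟩ : ∃ D, D = (f (fun m => (2 : ℝ) • v m) + C) / 2 := ⟨_, rfl⟩
  have hball : ∀ h : ℕ → E, (∀ m, ‖h m‖ ≤ 1 / 2) → f (fun m => v m + h m) ≤ D := by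
    intro h hh
    have h2 : ∀ m, ‖(2 : ℝ) • h m‖ ≤ 1 := fun m => by
      rw [norm_smul]
      simp only [Real.norm_ofNat]
      linarith [hh m]
    have h1 := hf (fun m => (2 : ℝ) • v m) (fun m => (2 : ℝ) • h m) (hsmul 2 v hv) ⟨1, h2⟩
    have h3 : (fun m => (2 : ℝ)⁻¹ • ((2 : ℝ) • v m + (2 : ℝ) • h m)) = fun m => v m + h m := by
      funext m
      rw [← smul_add, smul_smul]
      norm_num
    rw [h3] at h1
    have h4 := hC _ h2
    rw [hD]
    linarith
  -- dyadic contraction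
  have hdy : ∀ k : ℕ, ∀ h : ℕ → E, (∀ m, ‖h m‖ ≤ 1 / 2) →
      f (fun m => v m + ((2 : ℝ)⁻¹ ^ k) • h m) - f v ≤ (2 : ℝ)⁻¹ ^ k * (D - f v) := by
    intro k
    induction k with
    | zero =>
      intro h hh
      have h1 := hball h hh
      simp only [pow_zero, one_smul, one_mul]
      linarith
    | succ k ih =>
      intro h hh
      have hhb : Bdd h := ⟨1 / 2, hh⟩
      have h1 := hf v (fun m => v m + ((2 : ℝ)⁻¹ ^ k) • h m) hv (hadd _ _ hv (hsmul _ _ hhb))
      have h2 : (fun m => (2 : ℝ)⁻¹ • (v m + (v m + ((2 : ℝ)⁻¹ ^ k) • h m))) =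
          fun m => v m + ((2 : ℝ)⁻¹ ^ (k + 1)) • h m := by
        funext m
        rw [← add_assoc, ← two_smul ℝ (v m), smul_add, smul_smul, smul_smul, pow_succ]
        norm_num
        rw [mul_comm]
      rw [h2] at h1
      have h3 := ih h hh
      have h4 : (2 : ℝ)⁻¹ ^ (k + 1) * (D - f v) = (2 : ℝ)⁻¹ ^ k * (D - f v) / 2 := by
        rw [pow_succ]
        ring
      linarith
  have hDv : 0 ≤ D - f v := by
    have h1 := hball (fun _ => 0) (fun m => by simp)
    simp only [add_zero] at h1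
    linarith
  obtain ⟨k, hk⟩ : ∃ k : ℕ, (2 : ℝ)⁻¹ ^ k * (D - f v) ≤ η := by
    have h1 : Tendsto (fun k : ℕ => (2 : ℝ)⁻¹ ^ k * (D - f v)) atTop (𝓝 (0 * (D - f v))) :=
      (tendsto_pow_atTop_nhds_zero_of_lt_one (by norm_num) (by norm_num)).mul_const _
    rw [zero_mul] at h1
    exact ((h1.eventually (gt_mem_nhds hη)).exists).imp fun k hk => le_of_lt hk
  have hp : (0 : ℝ) < (2 : ℝ)⁻¹ ^ k := by positivity
  have hup : ∀ w : ℕ → E, (∀ m, ‖w m‖ ≤ (2 : ℝ)⁻¹ ^ k / 2) → f (fun m => v m + w m) - f v ≤ η := by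
    intro w hw
    have h1 := hdy k (fun m => ((2 : ℝ)⁻¹ ^ k)⁻¹ • w m) (fun m => by
      rw [norm_smul, norm_inv, Real.norm_of_nonneg hp.le, inv_mul_le_iff₀ hp]
      linarith [hw m])
    have h2 : (fun m => v m + ((2 : ℝ)⁻¹ ^ k) • (((2 : ℝ)⁻¹ ^ k)⁻¹ • w m)) =
        fun m => v m + w m := by
      funext m
      rw [smul_smul, mul_inv_cancel₀ hp.ne', one_smul]
    rw [h2] at h1
    exact h1.trans hk
  refine ⟨(2 : ℝ)⁻¹ ^ k / 2, by positivity, fun w hw => ?_⟩
  have h1 := hup (fun m => w m - v m) hw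
  have h2 := hup (fun m => v m - w m) (fun m => by rw [norm_sub_rev]; exact hw m)
  have h3 : (fun m => v m + (w m - v m)) = w := by
    funext m
    abel
  rw [h3] at h1
  have hwb : Bdd w := by
    obtain ⟨a, ha⟩ := hv
    refine ⟨(2 : ℝ)⁻¹ ^ k / 2 + a, fun m => ?_⟩
    have h4 : w m = (w m - v m) + v m := by abel
    rw [h4]
    exact (norm_add_le _ _).trans (add_le_add (hw m) (ha m))
  have hwb' : Bdd fun m => v m + (v m - w m) := by
    refine hadd _ _ hv ⟨(2 : ℝ)⁻¹ ^ k / 2, fun m => ?_⟩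
    rw [norm_sub_rev]
    exact hw m
  have h5 := hf w (fun m => v m + (v m - w m)) hwb hwb'
  have h6 : (fun m => (2 : ℝ)⁻¹ • (w m + (v m + (v m - w m)))) = v := by
    funext m
    have h7 : w m + (v m + (v m - w m)) = (2 : ℝ) • v m := by
      rw [two_smul]
      abel
    rw [h7, smul_smul]
    norm_num
  rw [h6] at h5
  rw [abs_le]
  constructor
  · linarith
  · exact h1

/-- There is a Borel map `Θ` from the Cantor space to the sequences of nonnegative reals, sending
Turing equivalent reals to sequences with difference tending to zero, such that the following holds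
for all real normed spaces `E` and all real valued functions `f` of sequences in `E` which are
midpoint convex on bounded sequences and invariant under null perturbations. For all sequences `L`
of `2`-Lipschitz maps from `[0, ∞)` to the unit ball of `E` and all natural numbers `n`, the set of
all `x` such that `f` takes values at most `n` at the two sequences `4 • L m (Θ x m)` and
`-4 • L m (Θ x m)` is Turing invariant, and if all these sets are determined, then `f` is continuous
on the bounded sequences for the supremum norm. -/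
theorem result :
    ∃ Θ : (ℕ → Bool) → ℕ → ℝ, Measurable Θ ∧ (∀ x m, 0 ≤ Θ x m) ∧
      (∀ x y, SameDegree x y → Tendsto (fun m => Θ x m - Θ y m) atTop (𝓝 0)) ∧
      ∀ (E : Type*) [NormedAddCommGroup E] [NormedSpace ℝ E] (f : (ℕ → E) → ℝ),
        MidConvex f → NullInvariant f →
        (∀ L : ℕ → ℝ → E, Slow L → ∀ n : ℕ, TuringInvariant {x |
          f (fun m => (4 : ℝ) • L m (Θ x m)) ≤ n ∧ f (fun m => (-4 : ℝ) • L m (Θ x m)) ≤ n}) ∧
        ((∀ L : ℕ → ℝ → E, Slow L → ∀ n : ℕ, Determined {x |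
          f (fun m => (4 : ℝ) • L m (Θ x m)) ≤ n ∧ f (fun m => (-4 : ℝ) • L m (Θ x m)) ≤ n}) →
          ∀ v, Bdd v → ∀ η > 0, ∃ δ > 0, ∀ w, (∀ m, ‖w m - v m‖ ≤ δ) → |f w - f v| ≤ η) := by
  refine ⟨sq, measurable_pi_iff.2 measurable_sq, sq_nonneg', fun x y h => sq_close h.1 h.2,
    fun E _ _ f hf hnull => ?_⟩
  have hLb : ∀ L : ℕ → ℝ → E, Slow L → ∀ (c : ℝ) (x : ℕ → Bool),
      Bdd fun m => c • L m (sq x m) := by
    intro L hL c x
    refine ⟨|c|, fun m => ?_⟩
    rw [norm_smul, Real.norm_eq_abs]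
    exact mul_le_of_le_one_right (abs_nonneg _) (hL.1 m _ (sq_nonneg' x m))
  have hLinv : ∀ L : ℕ → ℝ → E, Slow L → ∀ (c : ℝ) (x y : ℕ → Bool),
      TuringReducible (charFn x) (charFn y) → TuringReducible (charFn y) (charFn x) →
      f (fun m => c • L m (sq x m)) = f fun m => c • L m (sq y m) := by
    intro L hL c x y h1 h2
    refine hnull _ _ (hLb L hL c x) (hLb L hL c y) ?_
    have h3 : Tendsto (fun m => |c| * (2 * |sq x m - sq y m|)) atTop (𝓝 0) := by
      have h4 := ((sq_close h1 h2).abs.const_mul 2).const_mul |c|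
      simpa using h4
    refine squeeze_zero_norm (fun m => ?_) h3
    rw [← smul_sub, norm_smul, Real.norm_eq_abs]
    exact mul_le_mul_of_nonneg_left (hL.2 m _ _ (sq_nonneg' x m) (sq_nonneg' y m)) (abs_nonneg _)
  have hinv : ∀ L : ℕ → ℝ → E, Slow L → ∀ n : ℕ, TuringInvariant {x |
      f (fun m => (4 : ℝ) • L m (sq x m)) ≤ n ∧ f (fun m => (-4 : ℝ) • L m (sq x m)) ≤ n} := by
    rintro L hL n x y h1 h2 ⟨h3, h4⟩
    constructor
    · rw [← hLinv L hL _ x y h1 h2]
      exact h3
    · rw [← hLinv L hL _ x y h1 h2]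
      exact h4
  refine ⟨hinv, fun hD => ?_⟩
  have key : ∃ n : ℕ, ∀ v : ℕ → E, (∀ m, ‖v m‖ ≤ 1) → f v ≤ n := by
    by_contra hcon
    push Not at hcon
    choose v hv hv' using hcon
    let γ : ℕ → ∀ _ : ℕ, ℝ → Multiplicative E := fun i m t => Multiplicative.ofAdd (t • v i m)
    have hω : Modulus fun t : ℝ => t := ⟨fun a b h => h, tendsto_id⟩
    have hε : Tendsto (fun _ : ℕ => (0 : ℝ)) atTop (𝓝 0) := tendsto_const_nhds
    have hγ : ∀ i, IsPath (G := fun _ => Multiplicative E) (fun t => t) (fun _ => 0) (γ i) := by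
      intro i
      refine ⟨fun m => ?_, fun m s hs t ht => ?_⟩
      · simp [γ]
      · change dist (s • v i m) (t • v i m) ≤ |s - t| + 0
        rw [dist_eq_norm, ← sub_smul, norm_smul, Real.norm_eq_abs, add_zero]
        exact mul_le_of_le_one_right (abs_nonneg _) (hv i m)
    have hT := isTrack_track hω hγ
    let L : ℕ → ℝ → E := fun m t => Multiplicative.toAdd (track γ m t)
    have hL : Slow L := by
      have hL1 : ∀ m s, 0 ≤ s → ‖L m s‖ ≤ 1 := by
        intro m s hs
        obtain ⟨δ, hδ, hδ'⟩ := hT.reach (fun _ => s) (fun _ => hs)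
        have h1 := hδ.close m 1 (by simp) 0 (by simp)
        rw [hδ' m, hδ.start m] at h1
        simp only [sub_zero, abs_one, add_zero] at h1
        have h2 : dist (track γ m s) (1 : Multiplicative E) = ‖L m s‖ := by
          rw [← dist_zero_right]
          rfl
        rw [h2] at h1
        exact h1
      refine ⟨hL1, fun m s t hs ht => ?_⟩
      rcases le_or_gt |s - t| 1 with h | h
      · have h1 := hT.close m s t hs ht h
        simp only [mul_zero, add_zero] at h1
        rw [← dist_eq_norm]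
        exact h1
      · have h1 := norm_sub_le (L m s) (L m t)
        have h2 := hL1 m s hs
        have h3 := hL1 m t ht
        linarith
    obtain ⟨z, hz⟩ := const_on_cone (hinv L hL) (hD L hL)
    obtain ⟨n, hn⟩ : ∃ n : ℕ, max (f fun m => (4 : ℝ) • L m (sq z m))
        (f fun m => (-4 : ℝ) • L m (sq z m)) ≤ n := exists_nat_ge _
    have hn' : ∀ u, Pool.Agent.Helper227.TLe z u →
        f (fun m => (4 : ℝ) • L m (sq u m)) ≤ n ∧ f (fun m => (-4 : ℝ) • L m (sq u m)) ≤ n := by
      rcases hz n with h | h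
      · exact h
      · exact absurd ⟨(le_max_left _ _).trans hn, (le_max_right _ _).trans hn⟩
          (h z (Pool.Agent.Helper227.TLe.refl z))
    obtain ⟨y₁, y₂, y₃, y₄, h1, h2, h3, h4, h5⟩ :=
      four (G := fun _ => Multiplicative E) hω hε hγ z n
    have e1 := (hn' y₁ h1).1
    have e2 := (hn' y₂ h2).2
    have e3 := (hn' y₃ h3).1
    have e4 := (hn' y₄ h4).2
    have b : ∀ (c : ℝ) (x : ℕ → Bool), Bdd fun m => c • L m (sq x m) := hLb L hL
    have hmid : ∀ p q : ℕ → E, Bdd p → Bdd q → Bdd fun m => (2 : ℝ)⁻¹ • (p m + q m) := by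
      rintro p q ⟨a, ha⟩ ⟨a', ha'⟩
      refine ⟨2⁻¹ * (a + a'), fun m => ?_⟩
      rw [norm_smul, norm_inv, Real.norm_ofNat]
      have h7 := (norm_add_le (p m) (q m)).trans (add_le_add (ha m) (ha' m))
      linarith
    have m1 := hf _ _ (b 4 y₁) (b (-4) y₂)
    have m2 := hf _ _ (b 4 y₃) (b (-4) y₄)
    have m3 := hf _ _ (hmid _ _ (b 4 y₁) (b (-4) y₂)) (hmid _ _ (b 4 y₃) (b (-4) y₄))
    have m4 : f (v n) = f fun m => (2 : ℝ)⁻¹ • ((2 : ℝ)⁻¹ • ((4 : ℝ) • L m (sq y₁ m) +
        (-4 : ℝ) • L m (sq y₂ m)) + (2 : ℝ)⁻¹ • ((4 : ℝ) • L m (sq y₃ m) +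
        (-4 : ℝ) • L m (sq y₄ m))) := by
      refine hnull _ _ ⟨1, hv n⟩
        (hmid _ _ (hmid _ _ (b 4 y₁) (b (-4) y₂)) (hmid _ _ (b 4 y₃) (b (-4) y₄))) ?_
      have h6 := h5.symm
      unfold Near at h6
      refine squeeze_zero_norm (fun m => le_of_eq ?_) h6
      have h7 : (2 : ℝ)⁻¹ • ((2 : ℝ)⁻¹ • ((4 : ℝ) • L m (sq y₁ m) +
          (-4 : ℝ) • L m (sq y₂ m)) + (2 : ℝ)⁻¹ • ((4 : ℝ) • L m (sq y₃ m) +
          (-4 : ℝ) • L m (sq y₄ m))) =
          L m (sq y₁ m) + -L m (sq y₂ m) + L m (sq y₃ m) + -L m (sq y₄ m) := by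
        simp only [smul_add, smul_smul, neg_smul, smul_neg]
        norm_num
        abel
      rw [h7, ← dist_eq_norm]
      simp only [γ, one_smul]
      rfl
    rw [← m4] at m3
    have := hv' n
    linarith
  obtain ⟨n, hn⟩ := key
  exact continuity hf hn

end Pool.Agent.Results.MP_917879_lc.ConvexModNull
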