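import Pool.Agent.TH774.TD.Slow

set_option autoImplicit false

/-!
Turing determinacy implies a homogeneity theorem for surfaces in arbitrary metric spaces modulo null
sequences: every real valued invariant of sequences modulo null sequences takes one and the same
value at a two-dimensional family of slowly traversed forms of a sequence of surfaces. In particular,
for any two commuting uniformly continuous flows and any countable set `D` of reals the invariant is
constant on a whole set `{φ t ψ t' w | t in D, t' real}`. Stated as an explicit reduction to the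
determinacy of Turing invariant sets, which is used for two nested games.
-/

namespace Pool.Agent.Results.MP_917879_lc.LazySurfaces

open Pool.Agent.Helper227 Pool.Agent.H685R3 Pool.Agent.TH774.TD Filter Topology

/-- `x` and `y` have the same Turing degree (Mathlib's Turing reducibility, for characteristic
functions). -/
def SameDegree (x y : ℕ → Bool) : Prop :=
  TuringReducible (charFn x) (charFn y) ∧ TuringReducible (charFn y) (charFn x)

/-- `y` is in the cone with base `z`: `z` is Turing reducible to `y`. -/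
def InCone (z y : ℕ → Bool) : Prop := TuringReducible (charFn z) (charFn y)

section

variable {X : ℕ → Type*} [∀ m, PseudoMetricSpace (X m)]

/-- The distance of the two sequences tends to zero. -/
def Asymptotic (u v : ∀ m, X m) : Prop := Tendsto (fun m => dist (u m) (v m)) atTop (𝓝 0)

/-- The surfaces `M m : ℝ × ℝ → X m` are uniformly equicontinuous up to errors which tend to
zero. -/
def Equicontinuous (M : ∀ m, ℝ → ℝ → X m) : Prop :=
  ∀ η > 0, ∃ δ > 0, ∀ᶠ m in atTop, ∀ a b a' b' : ℝ, |a - b| ≤ δ → |a' - b'| ≤ δ →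
    dist (M m a a') (M m b b') ≤ η

end

/-- The function `θ` tends to infinity, and on some half-line it is nondecreasing, `1`-Lipschitz and
at most the identity. -/
structure IsLazy (θ : ℝ → ℝ) : Prop where
  top : Tendsto θ atTop atTop
  slow : ∃ A : ℝ, ∀ a b, A ≤ a → a ≤ b → θ a ≤ θ b ∧ θ b - θ a ≤ b - a ∧ θ a ≤ a

theorem exists_nice {θ : ℝ → ℝ} (h : IsLazy θ) :
    ∃ κ : ℝ → ℝ, Nice κ ∧ ∀ᶠ x in atTop, κ x = θ x := by
  obtain ⟨A, hA⟩ := h.slow
  obtain ⟨B, hB⟩ : ∃ B, B = max A 0 := ⟨_, rfl⟩
  have hAB : A ≤ B := by rw [hB]; exact le_max_left _ _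
  let g : ℝ → ℝ := fun x => θ (max x B)
  have hg : ∀ x y, x ≤ y → g x ≤ g y ∧ g y - g x ≤ y - x := by
    intro x y hxy
    have h1 : max x B ≤ max y B := max_le_max hxy le_rfl
    obtain ⟨h2, h3, -⟩ := hA (max x B) (max y B) (hAB.trans (le_max_right _ _)) h1
    refine ⟨h2, h3.trans ?_⟩
    rcases le_total x B with h4 | h4
    · rcases le_total y B with h5 | h5
      · rw [max_eq_right h4, max_eq_right h5]
        linarith
      · rw [max_eq_right h4, max_eq_left h5]
        linarith
    · rw [max_eq_left h4, max_eq_left (h4.trans hxy)]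
  have hev : ∀ᶠ x in atTop, min x (max 0 (g x)) = θ x := by
    filter_upwards [h.top.eventually_ge_atTop 0, eventually_ge_atTop B] with x h1 h2
    have h3 : g x = θ x := by
      change θ (max x B) = θ x
      rw [max_eq_left h2]
    rw [h3, max_eq_right h1, min_eq_right (hA x x (hAB.trans h2) le_rfl).2.2]
  refine ⟨fun x => min x (max 0 (g x)), ⟨fun x hx => le_min hx (le_max_left _ _),
    fun x _ => min_le_left _ _, fun x y _ hxy => ?_, fun x y _ hxy => ?_, ?_⟩, hev⟩
  · exact min_le_min hxy (max_le_max le_rfl (hg x y hxy).1)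
  · obtain ⟨h1, h2⟩ := hg x y hxy
    have h3 : max 0 (g y) ≤ max 0 (g x) + (y - x) := by
      refine max_le ?_ ?_
      · have := le_max_left 0 (g x)
        linarith
      · have := le_max_right 0 (g x)
        linarith
    have h4 : min y (max 0 (g y)) ≤ min x (max 0 (g x)) + (y - x) := by
      rw [← min_add_add_right]
      refine min_le_min (by linarith) h3
    linarith
  · exact h.top.congr' (hev.mono fun x hx => hx.symm)

/-- Lazy functions of one slow sequence are realized in every cone. -/
theorem walk_lazy (z : ℕ → Bool) : ∃ s : ℕ → ℝ, Tendsto s atTop atTop ∧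
    ∀ θ : ℝ → ℝ, IsLazy θ → ∃ y, TLe z y ∧ Tendsto (fun m => sq y m - θ (s m)) atTop (𝓝 0) := by
  obtain ⟨s, -, hs, hw⟩ := walk_sq z
  refine ⟨s, hs, fun θ hθ => ?_⟩
  obtain ⟨κ, hκ, hκ'⟩ := exists_nice hθ
  obtain ⟨y, hy, hy'⟩ := hw κ hκ
  refine ⟨y, hy, hy'.congr' ?_⟩
  filter_upwards [hs.eventually hκ'] with m hm
  rw [hm]

/-- There is a Borel map `Θ` from the Cantor space to the sequences of nonnegative reals, sending
Turing equivalent reals to sequences with difference tending to zero, such that the following holds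
for all sequences of (pseudo)metric spaces `X m`, all surfaces `M m : ℝ × ℝ → X m` which are uniformly
equicontinuous up to errors tending to zero, and all maps `F` from the product of the `X m` to the
Cantor space which take equal values at asymptotic sequences. For all `x` and `k` the set of all `y`
with `F (M m (Θ x m) (Θ y m))_m k = true` is Turing invariant, and so is the set of all `x` for which
this set contains a cone. If all these sets are determined, then there are a sequence `s` tending to
infinity and a value `c` such that for all countable families of lazy functions `θ i` there is a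
sequence `s'` tending to infinity with `F (M m (θ i (s m)) (θ' (s' m)))_m = c` for all `i` and all
lazy functions `θ'`. -/
theorem result :
    ∃ Θ : (ℕ → Bool) → ℕ → ℝ, Measurable Θ ∧ (∀ x m, 0 ≤ Θ x m) ∧
      (∀ x y, SameDegree x y → Tendsto (fun m => Θ x m - Θ y m) atTop (𝓝 0)) ∧
      ∀ (X : ℕ → Type*) [∀ m, PseudoMetricSpace (X m)] (M : ∀ m, ℝ → ℝ → X m),
        Equicontinuous M → ∀ F : (∀ m, X m) → ℕ → Bool, (∀ u v, Asymptotic u v → F u = F v) →
        (∀ x k, TuringInvariant {y | F (fun m => M m (Θ x m) (Θ y m)) k = true}) ∧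
        (∀ k, TuringInvariant
          {x | ∃ z, ∀ y, InCone z y → F (fun m => M m (Θ x m) (Θ y m)) k = true}) ∧
        ((∀ x k, Determined {y | F (fun m => M m (Θ x m) (Θ y m)) k = true}) →
          (∀ k, Determined
            {x | ∃ z, ∀ y, InCone z y → F (fun m => M m (Θ x m) (Θ y m)) k = true}) →
          ∃ (s : ℕ → ℝ) (c : ℕ → Bool), Tendsto s atTop atTop ∧
            ∀ θ : ℕ → ℝ → ℝ, (∀ i, IsLazy (θ i)) → ∃ s' : ℕ → ℝ, Tendsto s' atTop atTop ∧
              ∀ i, ∀ θ' : ℝ → ℝ, IsLazy θ' →
                F (fun m => M m (θ i (s m)) (θ' (s' m))) = c) := by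
  refine ⟨sq, measurable_pi_iff.2 measurable_sq, fun x m => Real.sqrt_nonneg _,
    fun x y h => sq_close h.1 h.2, fun X _ M hM F hF => ?_⟩
  have hnear : ∀ a b a' b' : ℕ → ℝ, Tendsto (fun m => a m - b m) atTop (𝓝 0) →
      Tendsto (fun m => a' m - b' m) atTop (𝓝 0) →
      F (fun m => M m (a m) (a' m)) = F fun m => M m (b m) (b' m) := by
    intro a b a' b' hab hab'
    refine hF _ _ ?_
    unfold Asymptotic
    rw [Metric.tendsto_atTop]
    intro η hη
    obtain ⟨δ, hδ, hδ'⟩ := hM (η / 2) (by linarith)
    have key : ∀ a b : ℕ → ℝ, Tendsto (fun m => a m - b m) atTop (𝓝 0) →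
        ∀ᶠ m in atTop, |a m - b m| ≤ δ := by
      intro a b hab
      have h2 := hab.abs
      rw [abs_zero] at h2
      exact (h2.eventually (gt_mem_nhds hδ)).mono fun m hm => le_of_lt hm
    obtain ⟨N, hN⟩ := eventually_atTop.1 (((key _ _ hab).and (key _ _ hab')).and hδ')
    refine ⟨N, fun m hm => ?_⟩
    obtain ⟨⟨h3, h5⟩, h4⟩ := hN m hm
    rw [Real.dist_eq, sub_zero, abs_of_nonneg dist_nonneg]
    have := h4 _ _ _ _ h3 h5
    linarith
  have hzero : ∀ a : ℕ → ℝ, Tendsto (fun m => a m - a m) atTop (𝓝 0) := by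
    intro a
    simp
  have hinv : ∀ x k, TuringInvariant {y | F (fun m => M m (sq x m) (sq y m)) k = true} := by
    intro x k y y' h1 h2 hy
    change F (fun m => M m (sq x m) (sq y' m)) k = true
    rw [hnear _ _ _ _ (hzero (sq x)) (sq_close h2 h1)]
    exact hy
  have hinv' : ∀ k, TuringInvariant
      {x | ∃ z, ∀ y, InCone z y → F (fun m => M m (sq x m) (sq y m)) k = true} := by
    rintro k x x' h1 h2 ⟨z, hz⟩
    refine ⟨z, fun y hy => ?_⟩
    rw [hnear _ _ _ _ (sq_close h2 h1) (hzero (sq y))]
    exact hz y hy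
  refine ⟨hinv, hinv', fun hD hD' => ?_⟩
  obtain ⟨z₀, hz₀⟩ := const_on_cone hinv' hD'
  obtain ⟨s, hs, hw⟩ := walk_lazy z₀
  classical
  refine ⟨s, fun k => decide (∀ u, TLe z₀ u → u ∈
    {x | ∃ z, ∀ y, InCone z y → F (fun m => M m (sq x m) (sq y m)) k = true}), hs,
    fun θ hθ => ?_⟩
  choose x hx hx' using fun i => hw (θ i) (hθ i)
  choose z hz using fun i => const_on_cone (hinv (x i)) (hD (x i))
  obtain ⟨z', hz'⟩ := Pool.Agent.W885.TD.join_cone z
  obtain ⟨s', hs', hw'⟩ := walk_lazy z'
  refine ⟨s', hs', fun i θ' hθ' => ?_⟩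
  obtain ⟨y, hy, hy'⟩ := hw' θ' hθ'
  rw [← hnear _ _ _ _ (hx' i) hy']
  funext k
  have hzy : TLe (z i) y := (hz' i).trans hy
  by_cases hk : ∀ u, TLe z₀ u → u ∈
      {x | ∃ z, ∀ y, InCone z y → F (fun m => M m (sq x m) (sq y m)) k = true}
  · rw [decide_eq_true hk]
    obtain ⟨v, hv⟩ := hk (x i) (hx i)
    rcases hz i k with h | h
    · exact h y hzy
    · exfalso
      obtain ⟨w, hw⟩ := Pool.Agent.W885.TD.join_cone fun n => if n = 0 then z i else v
      have h1 : TLe (z i) w := by simpa using hw 0
      have h2 : TLe v w := by simpa using hw 1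
      exact h w h1 (hv w h2)
  · rw [decide_eq_false hk]
    have h1 := (hz₀ k).resolve_left hk (x i) (hx i)
    rcases hz i k with h | h
    · exact absurd ⟨z i, fun y hy => h y hy⟩ h1
    · have h2 : ¬ F (fun m => M m (sq (x i) m) (sq y m)) k = true := h y hzy
      rwa [Bool.not_eq_true] at h2

end Pool.Agent.Results.MP_917879_lc.LazySurfaces
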