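import Pool.Agent.Helper67.TD.Four

set_option autoImplicit false

/-!
Turing determinacy implies a homogeneity theorem for all invariants with real values of sequences of
elements of metric groups modulo null sequences: for countably many end points `g i` of uniformly
continuous paths there is one value `c` such that every `g i` is a product of two elements of
value `c` and two inverses of elements of value `c`, up to a null sequence. Stated as an explicit
reduction to the determinacy of Turing invariant sets.
-/

namespace Pool.Agent.Results.MP_917879_lc.SmallInvariantsModNull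

open Pool.Agent.H685R3 Pool.Agent.TH774.TD Pool.Agent.Helper67.TD Filter Topology

/-- `x` and `y` have the same Turing degree (Mathlib's Turing reducibility, for characteristic
functions). -/
def SameDegree (x y : ℕ → Bool) : Prop :=
  TuringReducible (charFn x) (charFn y) ∧ TuringReducible (charFn y) (charFn x)

/-- There is a Borel map `Θ` from the Cantor space to the sequences of nonnegative reals, sending
Turing equivalent reals to sequences with difference tending to zero, such that the following holds
for all sequences of groups `G m` with two-sided invariant (pseudo)metrics, all moduli of continuity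
`ω`, all null sequences `ε` and all maps `F` from the product of the `G m` to the Cantor space which
take equal values at asymptotic sequences. The sets `{x | F (L m (Θ x m))_m k = true}` are Turing
invariant for all tracks `L`, and if all of them are determined, then for all sequences
`g 0, g 1, ...` of elements of `Reach ω ε` there is a value `c` such that every `g i` is
asymptotic to a product `a₁ a₂⁻¹ a₃ a₄⁻¹`, where the `a j` are elements of `Reach ω ε` with
`F (a j) = c`. -/
theorem result :
    ∃ Θ : (ℕ → Bool) → ℕ → ℝ, Measurable Θ ∧ (∀ x m, 0 ≤ Θ x m) ∧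
      (∀ x y, SameDegree x y → Tendsto (fun m => Θ x m - Θ y m) atTop (𝓝 0)) ∧
      ∀ (G : ℕ → Type*) [∀ m, Group (G m)] [∀ m, PseudoMetricSpace (G m)]
        [∀ m, IsIsometricSMul (G m) (G m)] [∀ m, IsIsometricSMul (G m)ᵐᵒᵖ (G m)]
        (ω : ℝ → ℝ) (ε : ℕ → ℝ), Modulus ω → Tendsto ε atTop (𝓝 0) →
        ∀ F : (∀ m, G m) → ℕ → Bool, (∀ u v, Near u v → F u = F v) →
        (∀ L, IsTrack ω ε L → ∀ k, TuringInvariant {x | F (fun m => L m (Θ x m)) k = true}) ∧
        ((∀ L, IsTrack ω ε L → ∀ k, Determined {x | F (fun m => L m (Θ x m)) k = true}) →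
          ∀ g : ℕ → ∀ m, G m, (∀ i, g i ∈ Reach ω ε) → ∃ c : ℕ → Bool, ∀ i,
            ∃ a : Fin 4 → ∀ m, G m, (∀ j, a j ∈ Reach ω ε ∧ F (a j) = c) ∧
              Near (g i) (fun m => a 0 m * (a 1 m)⁻¹ * a 2 m * (a 3 m)⁻¹)) := by
  refine ⟨sq, measurable_pi_iff.2 measurable_sq, sq_nonneg', fun x y h => sq_close h.1 h.2,
    fun G _ _ _ _ ω ε hω hε F hF => ?_⟩
  have hinv : ∀ L : ∀ m, ℝ → G m, IsTrack ω ε L → ∀ k,
      TuringInvariant {x | F (fun m => L m (sq x m)) k = true} := by
    intro L hL k x y h1 h2 hx
    have h3 := near_track hω hε hL (sq_nonneg' y) (sq_nonneg' x) (sq_close h2 h1)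
    change F (fun m => L m (sq y m)) k = true
    rw [hF _ _ h3]
    exact hx
  refine ⟨hinv, fun hD g hg => ?_⟩
  choose γ hγ hγ' using hg
  have hL := isTrack_track hω hγ
  obtain ⟨z, hz⟩ := const_on_cone (hinv _ hL) (hD _ hL)
  refine ⟨F fun m => track γ m (sq z m), fun i => ?_⟩
  have hconst : ∀ y, Pool.Agent.Helper227.TLe z y →
      F (fun m => track γ m (sq y m)) = F fun m => track γ m (sq z m) := by
    intro y hy
    funext k
    rcases hz k with h | h
    · have h1 : F (fun m => track γ m (sq y m)) k = true := h y hy
      have h2 : F (fun m => track γ m (sq z m)) k = true :=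
        h z (Pool.Agent.Helper227.TLe.refl z)
      rw [h1, h2]
    · have h1 : ¬ F (fun m => track γ m (sq y m)) k = true := h y hy
      have h2 : ¬ F (fun m => track γ m (sq z m)) k = true :=
        h z (Pool.Agent.Helper227.TLe.refl z)
      rw [Bool.not_eq_true] at h1 h2
      rw [h1, h2]
  obtain ⟨y₁, y₂, y₃, y₄, h1, h2, h3, h4, h5⟩ := four hω hε hγ z i
  have hy : ∀ j : Fin 4, Pool.Agent.Helper227.TLe z (![y₁, y₂, y₃, y₄] j) := by
    intro j
    fin_cases j
    · exact h1
    · exact h2
    · exact h3
    · exact h4
  refine ⟨fun j m => track γ m (sq (![y₁, y₂, y₃, y₄] j) m),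
    fun j => ⟨hL.reach _ (sq_nonneg' _), hconst _ (hy j)⟩, ?_⟩
  have h6 : (fun m => γ i m 1) = g i := funext fun m => hγ' i m
  rw [h6] at h5
  exact h5.symm

end Pool.Agent.Results.MP_917879_lc.SmallInvariantsModNull
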