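import Pool.Agent.Helper67.SY.Main

set_option autoImplicit false

/-!
# Payoff sets which do not distinguish the two players

Turing determinacy is the determinacy of the payoff sets which depend only on the join of the
Turing degrees of the two sequences of moves. The determinacy of all payoff sets which depend only
on the unordered pair of these two degrees is equivalent to the axiom of determinacy, even if the
dependence on more than the join is through a single bit: whether at least one of the two degrees
belongs to a fixed set of degrees. This is a case of a more general statement about rules `K` for
arbitrary generically countable equivalence relations in place of Turing equivalence.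
-/

namespace Pool.Agent.Results.MP_917879_lc.UnorderedPair

open Pool.Agent.Helper227 Pool.Agent.H685R3 Pool.Agent.Y588.PD Pool.Agent.Y588.PC
open Pool.Agent.Helper67.SY

/-- (1) There is a Turing invariant set `C` such that for every payoff set `A` whatsoever there is
a Turing invariant set `B` for which the set `OneIn C ∩ B`, of all plays in `B` in which at least
one of the two players plays a sequence in `C`, depends only on the unordered pair of the Turing
degrees of the sequences of the two players, and each of the two players has a winning strategy in
the game with payoff set `OneIn C ∩ B` if and only if the same player has one in the game with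
payoff set `A`.

(2) For every generically countable equivalence relation `R` there are continuous maps `κ₀`, `κ₁`
such that no `κ₁ z` is `Replaceable`, and the following holds for every set `K` of plays which
contains all plays in which player I plays some `κ₀ u` and in whose members player I plays a
`Replaceable` sequence whenever player II plays some `κ₁ z`: for every payoff set `A` the coded form
of `A` is closed under `R`, and each of the two players has a winning strategy in the game whose
payoff set is the intersection of `K` and the coded form of `A` if and only if the same player has
one in the game with payoff set `A`. -/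
theorem result :
    (∃ C : Set (ℕ → Bool), InvariantFor SameDegree C ∧
      ∀ A : Set (ℕ → Bool), ∃ B : Set (ℕ → Bool), InvariantFor SameDegree B ∧
        UnorderedInvariant (OneIn C ∩ B) ∧
        (WinsI (OneIn C ∩ B) ↔ WinsI A) ∧ (WinsII (OneIn C ∩ B) ↔ WinsII A)) ∧
    ∀ R : (ℕ → Bool) → (ℕ → Bool) → Prop, GenericallyCountable R →
      ∃ κ₀ κ₁ : (ℕ → Bool) → ℕ → Bool, Continuous κ₀ ∧ Continuous κ₁ ∧ Function.Injective κ₀ ∧
        (∀ z, κ₁ z ∉ Replaceable R κ₀) ∧
        ∀ K : Set (ℕ → Bool), (∀ x, part 0 x ∈ Set.range κ₀ → x ∈ K) →
          (∀ x ∈ K, part 1 x ∈ Set.range κ₁ → part 0 x ∈ Replaceable R κ₀) →
          ∀ A : Set (ℕ → Bool), InvariantFor R (CodedFor R κ₀ κ₁ A) ∧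
            (WinsI (K ∩ CodedFor R κ₀ κ₁ A) ↔ WinsI A) ∧
            (WinsII (K ∩ CodedFor R κ₀ κ₁ A) ↔ WinsII A) :=
  ⟨main_turing, fun _ hR => main hR⟩

end Pool.Agent.Results.MP_917879_lc.UnorderedPair
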